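import Pool.Agent.Q237.LR.Stm5

/-! Borel-Cantelli for a finite measure (job SP2 of project LR, helper237). -/

set_option autoImplicit false

namespace Pool.Agent.Q154.LR5

open MeasureTheory Set Filter Topology Pool.Agent.Q237.LR5

theorem sp2 : S_SP2 := by
  intro m θ K k0 hm hθ hsum
  have := hm
  have hae := ae_eventually_notMem hsum
  filter_upwards [hae] with E hE hI
  obtain ⟨k1, hk1⟩ := eventually_atTop.1 hE
  have hr1 : (0 : ℝ) < (1 / 2 : ℝ) ^ (k1 + k0) := by positivity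
  have hr1θ : (0 : ℝ) < ((1 / 2 : ℝ) ^ (k1 + k0)) ^ θ := Real.rpow_pos_of_pos hr1 θ
  have hM : (0 : ℝ) ≤ m.real univ := measureReal_nonneg
  have h2 : (0 : ℝ) < (2 : ℝ) ^ θ := Real.rpow_pos_of_pos (by norm_num) θ
  refine ⟨(2 : ℝ) ^ θ + m.real univ / ((1 / 2 : ℝ) ^ (k1 + k0)) ^ θ, ?_⟩
  intro η hη hη1
  have hηθ : (0 : ℝ) < η ^ θ := Real.rpow_pos_of_pos hη θ
  by_cases hle : η ≤ (1 / 2 : ℝ) ^ (k1 + k0)
  · obtain ⟨n, hn1, hn2⟩ := exists_nat_pow_near_of_lt_one hη hη1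
      (by norm_num : (0 : ℝ) < 1 / 2) (by norm_num)
    have hlt : k1 + k0 < n + 1 := by
      by_contra hcon
      push Not at hcon
      have h3 : (1 / 2 : ℝ) ^ (k1 + k0) ≤ (1 / 2 : ℝ) ^ (n + 1) :=
        pow_le_pow_of_le_one (by norm_num) (by norm_num) hcon
      linarith
    have hk : k1 ≤ n - k0 := by omega
    have hnk : n - k0 + k0 = n := by omega
    have h4 := hk1 (n - k0) hk
    rw [hnk] at h4
    have h5 : m (Icc (E - (1 / 2 : ℝ) ^ n) (E + (1 / 2 : ℝ) ^ n)) ≤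
        ENNReal.ofReal (((1 / 2 : ℝ) ^ n) ^ θ) := by
      by_contra hcon
      push Not at hcon
      exact h4 ⟨hI, hcon⟩
    have h6 : m (Ioo (E - η) (E + η)) ≤ m (Icc (E - (1 / 2 : ℝ) ^ n) (E + (1 / 2 : ℝ) ^ n)) := by
      apply measure_mono
      intro t ht
      constructor
      · linarith [ht.1]
      · linarith [ht.2]
    refine h6.trans (h5.trans (ENNReal.ofReal_le_ofReal ?_))
    have h7 : (1 / 2 : ℝ) ^ n ≤ 2 * η := by
      rw [pow_succ] at hn1
      linarith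
    calc ((1 / 2 : ℝ) ^ n) ^ θ ≤ (2 * η) ^ θ :=
          Real.rpow_le_rpow (by positivity) h7 hθ.le
      _ = 2 ^ θ * η ^ θ := Real.mul_rpow (by norm_num) hη.le
      _ ≤ _ := by
          apply mul_le_mul_of_nonneg_right _ hηθ.le
          have : 0 ≤ m.real univ / ((1 / 2 : ℝ) ^ (k1 + k0)) ^ θ := div_nonneg hM hr1θ.le
          linarith
  · push Not at hle
    have h8 : m (Ioo (E - η) (E + η)) ≤ m univ := measure_mono (subset_univ _)
    have h9 : m univ = ENNReal.ofReal (m.real univ) := by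
      rw [measureReal_def, ENNReal.ofReal_toReal (measure_ne_top m univ)]
    refine h8.trans ?_
    rw [h9]
    apply ENNReal.ofReal_le_ofReal
    have h10 : ((1 / 2 : ℝ) ^ (k1 + k0)) ^ θ ≤ η ^ θ := Real.rpow_le_rpow hr1.le hle.le hθ.le
    calc m.real univ = m.real univ / ((1 / 2 : ℝ) ^ (k1 + k0)) ^ θ *
          ((1 / 2 : ℝ) ^ (k1 + k0)) ^ θ := by field_simp
      _ ≤ m.real univ / ((1 / 2 : ℝ) ^ (k1 + k0)) ^ θ * η ^ θ :=
          mul_le_mul_of_nonneg_left h10 (div_nonneg hM hr1θ.le)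
      _ ≤ _ := by
          apply mul_le_mul_of_nonneg_right _ hηθ.le
          linarith

end Pool.Agent.Q154.LR5
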